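import Pool.Agent.R355.EPi

/-!
# All near polynomial relations between `e` and `π` of bounded degree and height have a common factor

Polynomials in two variables are elements of `ℤ[X][X]`: the first variable is the one of the coefficients, the second
one the outer one. `Small x t m n H ε` is the set of the integer polynomials `P` of degree at most `m` in the first and
at most `n` in the second variable, with coefficients of absolute value at most `H` and `|P(x, t)| < ε`.

A number `x` has a transcendence measure (`HasMeasure x`) if in every degree `|P(x)| ≥ c H ^ (-κ)` for all nonzero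
integer polynomials with coefficients at most `H`; the numbers `e`, `π` and the logarithms of the positive rational
numbers `≠ 1` have one (starting files, part (0)). We show, for all degrees `m`, `n`:

(1) Let `x` have a transcendence measure and let `t` be an arbitrary complex number. At every scale `X ≥ 1` all
polynomials in `Small x t m n X (c X ^ (-κ))` are divisible by one irreducible polynomial of positive degree in the
second variable; in particular they span a space of dimension at most `(m + 1) n`. The number `κ` does not depend on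
`t`, and `c` only on a bound for `|t|`.

(2) Let both `x` and `y` have transcendence measures, for instance `x = e`, `y = π`. At every scale all polynomials in
`Small x y m n X (c X ^ (-κ))` are divisible by one irreducible polynomial of positive degree in both variables; in
particular they span a space of dimension at most `m n`. (Exact relations: the numbers `x ^ i y ^ j`, `i ≤ m`, `j ≤ n`,
span a space of dimension at least `m + n + 1`. For `m = n = 1`: at every scale all very small numbers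
`a + b e + c π + d e π` with integers of absolute value at most `X` are proportional; a rational value of `π + e` or
`π - e` would be such a relation.)

(3) In the situation of (2), for `w > κ ρ`, `ρ > 1`, the polynomials `P` of height between `H₀` and `X` with
`|P(x, y)| ≤ (height P) ^ (-w)` are multiples of at most `log log X / log ρ + 1` irreducible polynomials.

Proof. A small polynomial has a small irreducible factor, whose height is bounded by Gelfond's lemma. By elimination
(starting file `Pool/Agent/TH456/TM/Near.lean`) two different irreducible polynomials are not both small at `(x, t)`.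
-/

set_option autoImplicit false

namespace Pool.Agent.Results.MP_363d4d_nt.CommonFactorOfNearRelations

open Polynomial

/-- transcendence measures of polynomial type in all degrees -/
def HasMeasure (x : ℂ) : Prop :=
  ∀ D : ℕ, ∃ κ c : ℝ, 0 ≤ κ ∧ 0 < c ∧ ∀ P : ℤ[X], P ≠ 0 → P.natDegree ≤ D →
    ∀ H : ℝ, 1 ≤ H → (∀ j, |(P.coeff j : ℝ)| ≤ H) → c ≤ H ^ κ * ‖aeval x P‖

/-- polynomials of degrees at most `m`, `n` with coefficients at most `H` and `|P(x, t)| < ε` -/
def Small (x t : ℂ) (m n : ℕ) (H ε : ℝ) : Set ℤ[X][X] :=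
  {P | P.natDegree ≤ n ∧ (∀ j, (P.coeff j).natDegree ≤ m) ∧ (∀ j k, |(((P.coeff j).coeff k : ℤ) : ℝ)| ≤ H) ∧
    ‖aevalAeval x t P‖ < ε}

/-- the largest absolute value of a coefficient -/
noncomputable def height (P : ℤ[X][X]) : ℕ :=
  P.support.sup fun j => (P.coeff j).support.sup fun i => ((P.coeff j).coeff i).natAbs

/-- **Common factors of near relations.** -/
theorem result :
    (HasMeasure ((Real.exp 1 : ℝ) : ℂ) ∧ HasMeasure (Real.pi : ℂ) ∧
      ∀ q : ℚ, 0 < q → q ≠ 1 → HasMeasure ((Real.log q : ℝ) : ℂ)) ∧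
    (∀ x : ℂ, HasMeasure x → ∀ m n : ℕ, ∃ κ : ℝ, 0 < κ ∧ ∀ T : ℝ, ∃ c : ℝ, 0 < c ∧ ∀ t : ℂ, ‖t‖ ≤ T →
      ∀ X : ℝ, 1 ≤ X →
        (∃ F : ℤ[X][X], Irreducible F ∧ 0 < F.natDegree ∧ ∀ P ∈ Small x t m n X (c * X ^ (-κ)), F ∣ P) ∧
        ∀ P : Fin ((m + 1) * n + 1) → ℤ[X][X], LinearIndependent ℤ P →
          ∃ k, P k ∉ Small x t m n X (c * X ^ (-κ))) ∧
    (∀ x y : ℂ, HasMeasure x → HasMeasure y → ∀ m n : ℕ, ∃ κ c : ℝ, 0 < κ ∧ 0 < c ∧
      (∀ X : ℝ, 1 ≤ X →
        (∃ F : ℤ[X][X], Irreducible F ∧ 0 < F.natDegree ∧ (∃ j, 0 < (F.coeff j).natDegree) ∧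
          ∀ P ∈ Small x y m n X (c * X ^ (-κ)), F ∣ P) ∧
        ∀ P : Fin (m * n + 1) → ℤ[X][X], LinearIndependent ℤ P →
          ∃ k, P k ∉ Small x y m n X (c * X ^ (-κ))) ∧
      ∀ ρ w : ℝ, 1 < ρ → ρ * κ < w → ∃ H₀ : ℝ, ∀ X : ℝ, 3 ≤ X → ∃ (N : ℕ) (F : Fin N → ℤ[X][X]),
        (N : ℝ) ≤ Real.log (Real.log X) / Real.log ρ + 1 ∧
        (∀ i, Irreducible (F i) ∧ 0 < (F i).natDegree ∧ ∃ j, 0 < ((F i).coeff j).natDegree) ∧
        ∀ P : ℤ[X][X], P.natDegree ≤ n → (∀ j, (P.coeff j).natDegree ≤ m) → H₀ ≤ height P → height P ≤ X →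
          ‖aevalAeval x y P‖ ≤ (height P : ℝ) ^ (-w) → ∃ i, F i ∣ P) := by
  have hxd : ∀ F : ℤ[X][X], 0 < Pool.Agent.R523.Gel.xd F → ∃ j, 0 < (F.coeff j).natDegree := by
    intro F hF
    by_contra hno
    push Not at hno
    have := Pool.Agent.R523.Gel.xd_le F 0 hno
    omega
  refine ⟨⟨Pool.Agent.TH456.TM.measT_e, Pool.Agent.TH456.TM.measT_pi, fun q hq hq1 =>
    Pool.Agent.TH456.TM.measT_real_log q hq hq1⟩, ?_, ?_⟩
  · intro x hx m n
    obtain ⟨κ, hκ, h⟩ := Pool.Agent.R355.EPi.common x hx m n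
    refine ⟨κ, hκ, fun T => ?_⟩
    obtain ⟨c, hc, h⟩ := h T
    refine ⟨c, hc, fun t ht X hX => ?_⟩
    obtain ⟨F, hF, hF1, hF2⟩ := h t ht X hX
    refine ⟨⟨F, hF, hF1, hF2⟩, fun P hP => ?_⟩
    exact Pool.Agent.R355.EPi.dependent x t m n 0 1 X (c * X ^ (-κ)) F hF.ne_zero hF1 (Nat.zero_le _) hF2 P hP
  · intro x y hx hy m n
    obtain ⟨κ, c, hκ, hc, h⟩ := Pool.Agent.R355.EPi.common2 x y hx hy m n
    refine ⟨κ, c, hκ, hc, fun X hX => ?_, fun ρ w hρ hw => ?_⟩
    · obtain ⟨F, hF, hF1, hF2, hF3⟩ := h X hX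
      refine ⟨⟨F, hF, hF1, hxd F hF2, hF3⟩, fun P hP => ?_⟩
      exact Pool.Agent.R355.EPi.dependent x y m n 1 1 X (c * X ^ (-κ)) F hF.ne_zero hF1 hF2 hF3 P hP
    · obtain ⟨H₀, hH⟩ := Pool.Agent.R355.EPi.few
        (α := {P : ℤ[X][X] // P.natDegree ≤ n ∧ ∀ j, (P.coeff j).natDegree ≤ m})
        (β := {F : ℤ[X][X] // Irreducible F ∧ 0 < F.natDegree ∧ ∃ j, 0 < (F.coeff j).natDegree})
        (fun P => (height P.1 : ℝ)) (fun P => ‖aevalAeval x y P.1‖) (fun F P => F.1 ∣ P.1) c κ ρ w hc hκ.le hρ hw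
        (fun X hX => by
          obtain ⟨F, hF, hF1, hF2, hF3⟩ := h X hX
          refine ⟨⟨F, hF, hF1, hxd F hF2⟩, fun P hPX hPv => hF3 P.1 ⟨P.2.1, P.2.2, fun j k => ?_, hPv⟩⟩
          refine le_trans ?_ hPX
          rw [← Int.cast_abs, Int.abs_eq_natAbs, Int.cast_natCast]
          exact Nat.cast_le.2 (Pool.Agent.TH456.TM.le_hgt P.1 j k))
      refine ⟨H₀, fun X hX => ?_⟩
      obtain ⟨N, F, hN, hF⟩ := hH X hX
      exact ⟨N, fun i => (F i).1, hN, fun i => (F i).2, fun P h1 h2 h3 h4 h5 => hF ⟨P, h1, h2⟩ h3 h4 h5⟩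

end Pool.Agent.Results.MP_363d4d_nt.CommonFactorOfNearRelations
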