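import Mathlib
import Pool.Agent.R473.JC.Final

/-!
# Algebraic relations between the digits of `π + e` and between the digits of `π - e`

`S(X) = s_1 X + ⋯ + s_L X^L`, where the `s_i` are the digits of a real number `x` in base `b` after
at most `K` of them have been changed.  The `K`-error algebraic complexity `N_b(x) = N_b(x; r, K, L)`
is the least `k` such that `X^(L+1)` divides `P(X, S(X))` for some nonzero polynomial `P(X, Y)` of
degree at most `r` in `Y` and at most `k` in `X` and some such choice of `S`; for `r = 1` this is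
essentially the linear complexity.

For every `r` there is `c > 0` with `N_b(π + e) + N_b(π - e) + 2 ≥ c^(K+1) L` for all bases `b`, all
`K` and all `L`.  More generally let `t` be any real number, and let `u = a e + b t` and
`v = c e + d t` be two linear forms with integer coefficients and `a d ≠ b c`.  Then `u` and `v`
cannot both have digits of low algebraic complexity, where two different bases, two different
lengths and two different numbers of errors are allowed.

Proof.  A relation for the digits of `u` gives an integer polynomial `P` of degree at most `r` with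
small coefficients and a very small value `P(u)` (Siegel's lemma, `Pool.Agent.W472.AC`); changed
digits shift `u` by a rational number with a denominator that is a power of the base, and the last
change is bounded by induction.  Since `e` is algebraic over `ℤ[u, v]`, the
values `P(u)` and `Q(v)` cannot both be very small (`Pool.Agent.R356.joint`, which uses the
transcendence measure of `e`).
-/

set_option autoImplicit false

namespace Pool.Agent.Results.MP_363d4d_nt.JointAlgebraicComplexity

open Finset Polynomial Module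

/-- the `i`-th digit of `x` after the point in base `b` -/
noncomputable def digit (b : ℕ) (x : ℝ) (i : ℕ) : ℤ := ⌊x * (b : ℝ) ^ i⌋ % (b : ℤ)

/-- the polynomial `s_1 X + s_2 X^2 + ⋯ + s_L X^L` -/
noncomputable def seqPoly (s : ℕ → ℤ) (L : ℕ) : ℚ[X] := ∑ l ∈ Icc 1 L, C (s l : ℚ) * X ^ l

/-- `s` is a sequence of base `b` digits, and among the places `1, …, L` at most `K` are such that
`s_l` is not the `l`-th digit of `x` -/
def Near (b : ℕ) (x : ℝ) (K L : ℕ) (s : ℕ → ℤ) : Prop :=
  (∀ l, 0 ≤ s l ∧ s l < b) ∧ {l : ℕ | 1 ≤ l ∧ l ≤ L ∧ s l ≠ digit b x l}.ncard ≤ K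

/-- there is a nonzero polynomial `P(X, Y)` over `ℚ` of degree `≤ r` in `Y` and `≤ k` in `X` such
that `P(X, S(X))` is divisible by `X^(L+1)`, where `S` is the polynomial of the first `L` terms
of `s` -/
def AlgRelation (s : ℕ → ℤ) (r L k : ℕ) : Prop :=
  ∃ P : ℚ[X][X], P ≠ 0 ∧ P.natDegree ≤ r ∧ (∀ j, (P.coeff j).natDegree ≤ k) ∧
    X ^ (L + 1) ∣ P.eval (seqPoly s L)

/-- the `K`-error algebraic complexity of degree `r` of the first `L` digits of `x` in base `b`: the
least `k` such that after the change of at most `K` of the digits there is a relation with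
coefficients of degree at most `k` -/
noncomputable def complexity (b : ℕ) (x : ℝ) (r K L : ℕ) : ℕ :=
  sInf {k : ℕ | ∃ s, Near b x K L s ∧ AlgRelation s r L k}

/-- the joint lower bound for `u` and `v` in degree `r`, with the constant `A`, in all pairs of
bases, for all lengths and all numbers of errors -/
def Bound (A : ℝ) (r : ℕ) (u v : ℝ) : Prop :=
  ∀ b b' : ℕ, 2 ≤ b → 2 ≤ b' → ∀ K K' L L' : ℕ,
    min (L * Real.log b) (L' * Real.log b') ≤
      A ^ (K + K' + 1) * ((complexity b u r K L + 1) * Real.log b +
        (complexity b' v r K' L' + 1) * Real.log b')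

/-- the case of one base, one length and one number of errors -/
lemma one_base (u v A : ℝ) (hA : 1 ≤ A) (r : ℕ) (h : Bound A r u v) (b : ℕ) (hb : 2 ≤ b)
    (K L : ℕ) : (1 / A ^ 2) ^ (K + 1) * (L : ℝ) ≤
      complexity b u r K L + complexity b v r K L + 2 := by
  have hl : 0 < Real.log b := Real.log_pos (by exact_mod_cast (by omega : 1 < b))
  have hA0 : 0 < A := by linarith
  have h1 := h b b hb hb K K L L
  rw [min_self] at h1
  have h2 : (L : ℝ) ≤ A ^ (K + K + 1) * (complexity b u r K L + complexity b v r K L + 2) := by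
    have h3 : (L : ℝ) * Real.log b ≤
        (A ^ (K + K + 1) * (complexity b u r K L + complexity b v r K L + 2)) * Real.log b := by
      linarith
    exact le_of_mul_le_mul_right h3 hl
  have h4 : A ^ (K + K + 1) ≤ (A ^ 2) ^ (K + 1) := by
    rw [← pow_mul]
    exact pow_le_pow_right₀ hA (by omega)
  rw [div_pow, one_pow, div_mul_eq_mul_div, one_mul, div_le_iff₀ (by positivity)]
  calc (L : ℝ) ≤ A ^ (K + K + 1) * (complexity b u r K L + complexity b v r K L + 2) := h2
    _ ≤ (A ^ 2) ^ (K + 1) * (complexity b u r K L + complexity b v r K L + 2) :=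
        mul_le_mul_of_nonneg_right h4 (by positivity)
    _ = _ := by ring

/-- **(1)** Let `t` be a real number and let `a, b, c, d` be integers with `a d ≠ b c`.  For every
`r` the joint lower bound holds for `a e + b t` and `c e + d t`: there is `A ≥ 1` such that for all
bases `β, β'`, all lengths `L, L'` and all numbers of errors `K, K'`
`min (L log β, L' log β') ≤ A^(K+K'+1) ((N + 1) log β + (N' + 1) log β')`.

**(2)** For every `r` there is `c > 0` such that for all bases `b ≥ 2`, all `K` and all `L`
`c^(K+1) L ≤ N_b(π + e; r, K, L) + N_b(π - e; r, K, L) + 2`. -/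
theorem result :
    (∀ (t : ℝ) (a b c d : ℤ), a * d - b * c ≠ 0 → ∀ r : ℕ, ∃ A : ℝ, 1 ≤ A ∧
      Bound A r (a * Real.exp 1 + b * t) (c * Real.exp 1 + d * t)) ∧
    (∀ r : ℕ, ∃ c : ℝ, 0 < c ∧ ∀ b : ℕ, 2 ≤ b → ∀ K L : ℕ,
      c ^ (K + 1) * L ≤ complexity b (Real.pi + Real.exp 1) r K L +
        complexity b (Real.pi - Real.exp 1) r K L + 2) := by
  have part1 : ∀ (t : ℝ) (a b c d : ℤ), a * d - b * c ≠ 0 → ∀ r : ℕ, ∃ A : ℝ, 1 ≤ A ∧
      Bound A r (a * Real.exp 1 + b * t) (c * Real.exp 1 + d * t) := by
    intro t a b c d h r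
    exact Pool.Agent.R473.JC.pair _ _ (Pool.Agent.R473.JC.jointR_of_alg (Real.exp 1)
      Pool.Agent.TH456.TM.measT_e _ _ (Pool.Agent.R473.JC.alg_lin (Real.exp 1) t a b c d h)) r
  refine ⟨part1, fun r => ?_⟩
  obtain ⟨A, hA, h⟩ := part1 Real.pi 1 1 (-1) 1 (by norm_num) r
  have hA0 : 0 < A := by linarith
  have e1 : ((1 : ℤ) : ℝ) * Real.exp 1 + ((1 : ℤ) : ℝ) * Real.pi = Real.pi + Real.exp 1 := by
    push_cast; ring
  have e2 : ((-1 : ℤ) : ℝ) * Real.exp 1 + ((1 : ℤ) : ℝ) * Real.pi = Real.pi - Real.exp 1 := by
    push_cast; ring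
  rw [e1, e2] at h
  exact ⟨1 / A ^ 2, by positivity, fun b hb K L => one_base _ _ A hA r h b hb K L⟩

end Pool.Agent.Results.MP_363d4d_nt.JointAlgebraicComplexity
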