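import Mathlib
import Pool.Agent.R473.FP.JointPred

/-!
# Predicting the digits of `π + e` and of `π - e`

If one of the numbers `π + e`, `π - e` is rational, then its digits are predicted by a finite
automaton which makes only finitely many errors.  Here we prove that two finite automata, one of
which reads the digits of `π + e` in base `b` and predicts them one after the other, and the other
one those of `π - e` in base `b'`, make together at least `log (N / (Q + Q')) / log A - C` errors on
the first `N` digits, at every scale `N`, with one constant `A` for all bases and all numbers `Q`,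
`Q'` of states.

More generally the same is true for two devices which make predictions such that on every stretch
without errors the digits satisfy an algebraic relation of degree at most `r` with coefficients of
degree at most `k` (and different relations on different stretches), and for two linear forms
`a e + b t`, `c e + d t` with integer coefficients, `a d ≠ b c`, where `t` is an arbitrary real
number.  This includes the joint linear and algebraic complexity with changed digits only in part:
here the relations may change from block to block.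

Proof.  Multiplied by `b^p`, the number `u` turns a relation for the block of its digits from the
`(p+1)`-st to the `q`-th place into an integer polynomial `P` of degree at most `r` and of height
`b^(O(k+p))` with `|P(u)| ≤ b^(O(k+p)-q)`.  Since `e` is algebraic over `ℤ[u, v]` and
has a transcendence measure of polynomial type, such polynomials cannot exist for `u` and for `v` if
`q` is much larger than `k + p` (`Pool.Agent.R356.joint`).  This bounds the ends of two blocks in
terms of their beginnings, and the theorem follows by induction on the number of the cuts.  On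
a stretch without errors a predictor with `Q` states is autonomous and runs into a cycle, which is
a relation with `r = 1`, `k = Q`.
-/

set_option autoImplicit false

namespace Pool.Agent.Results.MP_363d4d_nt.JointPredictors

open Finset Polynomial
open Pool.Agent.R473.FP (run errors)

/-- the `i`-th digit of `x` after the point in base `b` -/
noncomputable def digit (b : ℕ) (x : ℝ) (i : ℕ) : ℤ := ⌊x * (b : ℝ) ^ i⌋ % (b : ℤ)

/-- the polynomial `d_(u+1) X + ⋯ + d_(u+n) X^n` of a block of digits of `x` in base `b` -/
noncomputable def blockPoly (b : ℕ) (x : ℝ) (u n : ℕ) : ℚ[X] :=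
  ∑ l ∈ Icc 1 n, C (digit b x (u + l) : ℚ) * X ^ l

/-- there are polynomials `h_0, …, h_r` over `ℚ` of degree `≤ k`, not all zero, such that
`h_0 + h_1 D + ⋯ + h_r D^r` is divisible by `X^(q-p+1)`, where `D` is the polynomial of the block of
the digits of `x` from the `(p+1)`-st to the `q`-th place -/
def BlockRelation (b : ℕ) (x : ℝ) (r p q k : ℕ) : Prop :=
  ∃ h : Fin (r + 1) → ℚ[X], h ≠ 0 ∧ (∀ j, (h j).natDegree ≤ k) ∧
    X ^ (q - p + 1) ∣ ∑ j, h j * blockPoly b x p (q - p) ^ (j : ℕ)

/-- The digits of `x` with the numbers `e + 1`, `e ∈ E`, are omitted; they cut the first `N` digits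
into blocks.  Every block satisfies a relation of degree `≤ r` with coefficients of degree `≤ k`. -/
def Cut (b : ℕ) (x : ℝ) (r k N : ℕ) (E : Finset ℕ) : Prop :=
  ∀ p q, p ≤ q → q ≤ N → (p = 0 ∨ ∃ e ∈ E, p = e + 1) → (q = N ∨ q ∈ E) →
    (∀ e ∈ E, e < p ∨ q ≤ e) → BlockRelation b x r p q k

/-- the joint lower bound for the numbers of cuts and the orders of the relations -/
def BlockBound (A : ℝ) (r : ℕ) (u v : ℝ) : Prop :=
  ∀ b b' : ℕ, 2 ≤ b → 2 ≤ b' → ∀ k k' N N' : ℕ, ∀ E E' : Finset ℕ,
    Cut b u r k N E → Cut b' v r k' N' E' →
    min (N * Real.log b) (N' * Real.log b') ≤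
      A ^ (E.card + E'.card + 1) * ((k + 1) * Real.log b + (k' + 1) * Real.log b')

/-- the joint lower bound for the numbers of errors of two finite-state predictors, with `Q` and
`Q'` states, of the digits of `u` in base `b` and of the digits of `v` in base `b'`; `errors` and
`run` are defined in `Pool/Agent/R473/FP/FS.lean` -/
def PredictorBound (A : ℝ) (u v : ℝ) : Prop :=
  ∀ b b' : ℕ, 2 ≤ b → 2 ≤ b' → ∀ (Q Q' : ℕ) (δ : Fin Q → ℤ → Fin Q) (δ' : Fin Q' → ℤ → Fin Q')
    (q₀ : Fin Q) (q₀' : Fin Q') (out : Fin Q → ℤ) (out' : Fin Q' → ℤ) (N N' : ℕ),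
    min (N * Real.log b) (N' * Real.log b') ≤
      A ^ (errors δ q₀ out (digit b u) N + errors δ' q₀' out' (digit b' v) N' + 1) *
        ((Q + 1) * Real.log b + (Q' + 1) * Real.log b')

lemma blockBound (u v : ℝ) (huv : Pool.Agent.R356.JointR u v) (r : ℕ) :
    ∃ A : ℝ, 1 ≤ A ∧ BlockBound A r u v := by
  obtain ⟨A, hA, h⟩ := Pool.Agent.R473.FP.cut_pair u v huv r
  exact ⟨A, hA, fun b b' hb hb' k k' N N' E E' hC hC' => h b b' hb hb' k k' N N' E E' hC hC'⟩

lemma predictorBound (u v : ℝ) (huv : Pool.Agent.R356.JointR u v) :
    ∃ A : ℝ, 1 ≤ A ∧ PredictorBound A u v := by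
  obtain ⟨A, hA, h⟩ := Pool.Agent.R473.FP.pred_pair u v huv
  exact ⟨A, hA, fun b b' hb hb' Q Q' δ δ' q₀ q₀' out out' N N' =>
    h b b' hb hb' Q Q' δ δ' q₀ q₀' out out' N N'⟩


/-- **(1)** Let `t` be a real number and let `a, b, c, d` be integers with `a d ≠ b c`.  For every
`r` there is `A ≥ 1` with the following property.  If the first `N` base `β` digits of `a e + b t`
are cut by omitting the digits with the numbers `e + 1`, `e ∈ E`, into blocks which satisfy relations
of degree `≤ r` with coefficients of degree `≤ k`, and the first `N'` base `β'` digits of `c e + d t`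
are cut by `E'` into blocks with relations of degree `≤ r` with coefficients of degree `≤ k'`, then
`min (N log β, N' log β') ≤ A^(|E|+|E'|+1) ((k + 1) log β + (k' + 1) log β')`.

**(2)** There is `A ≥ 1` such that for all predictors with `Q` and `Q'` states the numbers of errors
`ε` on the first `N` base `b` digits of `π + e` and `ε'` on the first `N'` base `b'` digits of
`π - e` satisfy `min (N log b, N' log b') ≤ A^(ε+ε'+1) ((Q + 1) log b + (Q' + 1) log b')`. -/
theorem result :
    (∀ (t : ℝ) (a b c d : ℤ), a * d - b * c ≠ 0 → ∀ r : ℕ, ∃ A : ℝ, 1 ≤ A ∧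
      BlockBound A r (a * Real.exp 1 + b * t) (c * Real.exp 1 + d * t)) ∧
    (∃ A : ℝ, 1 ≤ A ∧ PredictorBound A (Real.pi + Real.exp 1) (Real.pi - Real.exp 1)) := by
  have hj : ∀ (t : ℝ) (a b c d : ℤ), a * d - b * c ≠ 0 →
      Pool.Agent.R356.JointR (a * Real.exp 1 + b * t) (c * Real.exp 1 + d * t) := by
    intro t a b c d h
    exact Pool.Agent.R473.JC.jointR_of_alg (Real.exp 1) Pool.Agent.TH456.TM.measT_e _ _
      (Pool.Agent.R473.JC.alg_lin (Real.exp 1) t a b c d h)
  refine ⟨fun t a b c d h r => blockBound _ _ (hj t a b c d h) r, ?_⟩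
  have h := hj Real.pi 1 1 (-1) 1 (by norm_num)
  have e1 : ((1 : ℤ) : ℝ) * Real.exp 1 + ((1 : ℤ) : ℝ) * Real.pi = Real.pi + Real.exp 1 := by
    push_cast; ring
  have e2 : ((-1 : ℤ) : ℝ) * Real.exp 1 + ((1 : ℤ) : ℝ) * Real.pi = Real.pi - Real.exp 1 := by
    push_cast; ring
  rw [e1, e2] at h
  exact predictorBound _ _ h

end Pool.Agent.Results.MP_363d4d_nt.JointPredictors
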