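import Mathlib
import Pool.Agent.R354.LCone

set_option autoImplicit false

/-!
# Linear recurrences for the digits of `π + e` in one base and of `π - e` in another base

The linear complexity `N_b(y; L)` of the first `L` digits of `y` in base `b` is the least order of a
linear recurrence over `ℚ` satisfied by these digits. It is bounded for `L → ∞` if and only if `y` is
rational, and about `L / 2` for random digits.

(1) Let `y = α ξ + β e + γ`, `y' = α' ξ + β' e + γ'` be two forms with rational coefficients and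
`α β' ≠ α' β`, and let `η > 0`. There is `C` such that for all real `ξ` (for instance `ξ = π`), all
bases `b`, `b'` and all lengths `L`, `L'`
`min (L log b, L' log b') ≤ (2 + η) (N_b(y; L) log b + N_b'(y'; L') log b') + C (log b + log b')`.

(2) For `ε > 0` there is `C` with `N_b(π + e; L) + N_b(π - e; L) ≥ (1 / 2 - ε) L - C` for all bases
`b` and all `L`.

(3) For every finite set `F` of pairwise independent forms and every `ε > 0` there is `C` such that
for all real `ξ` and for every scale `X` all but at most one of the forms `y` in `F` satisfy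
`N_b(y; L) log b ≥ (1 / 4 - ε) X - C log b` for all bases `b` and all `L` with `L log b ≥ X`.
-/

namespace Pool.Agent.Results.MP_363d4d_nt.RecurrencesInTwoBases

open Finset

/-- the `i`-th digit of `x` after the point in base `b` -/
noncomputable def digit (b : ℕ) (x : ℝ) (i : ℕ) : ℤ := ⌊x * (b : ℝ) ^ i⌋ % (b : ℤ)

/-- The terms `s_1, …, s_L` satisfy the linear recurrence
`s_(i+m) = c_0 s_i + … + c_(m-1) s_(i+m-1)` for `1 ≤ i ≤ L - m`. -/
def Recurrence (s : ℕ → ℤ) (c : ℕ → ℚ) (L m : ℕ) : Prop :=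
  ∀ i : ℕ, 1 ≤ i → i + m ≤ L → (s (i + m) : ℚ) = ∑ j ∈ range m, c j * (s (i + j) : ℚ)

/-- the linear complexity of the first `L` digits of `x` in base `b` -/
noncomputable def complexity (b : ℕ) (x : ℝ) (L : ℕ) : ℕ :=
  sInf {m | ∃ c : ℕ → ℚ, Recurrence (digit b x) c L m}

/-- `α ξ + β e + γ` -/
noncomputable def form (ξ : ℝ) (f : ℚ × ℚ × ℚ) : ℝ :=
  f.1 * ξ + f.2.1 * Real.exp 1 + f.2.2

/-- `α β' ≠ α' β` -/
def Independent (f g : ℚ × ℚ × ℚ) : Prop := f.1 * g.2.1 ≠ g.1 * f.2.1

/-- `N_b(y; L) log b < (1 / 4 - ε) X - C log b` for some base `b` and some `L` with `L log b ≥ X` -/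
def Bad (C ε X y : ℝ) : Prop :=
  ∃ b L : ℕ, 2 ≤ b ∧ X ≤ L * Real.log b ∧
    complexity b y L * Real.log b < (1 / 4 - ε) * X - C * Real.log b

lemma recurrence (b : ℕ) (x : ℝ) (L : ℕ) :
    ∃ c : ℕ → ℚ, Recurrence (digit b x) c L (complexity b x L) := by
  have h : L ∈ {m | ∃ c : ℕ → ℚ, Recurrence (digit b x) c L m} := by
    refine ⟨fun _ => 0, fun i h1 h2 => ?_⟩
    omega
  exact Nat.sInf_mem ⟨L, h⟩

lemma common_den (s : Finset ℚ) : ∃ M : ℤ, 1 ≤ M ∧ ∀ x ∈ s, ∃ A : ℤ, (M : ℝ) * (x : ℝ) = A := by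
  classical
  refine ⟨∏ x ∈ s, (x.den : ℤ), ?_, ?_⟩
  · have : 0 < ∏ x ∈ s, (x.den : ℤ) := Finset.prod_pos fun x _ => by exact_mod_cast x.den_pos
    omega
  · intro x hx
    refine ⟨(∏ y ∈ s.erase x, (y.den : ℤ)) * x.num, ?_⟩
    rw [← Finset.mul_prod_erase s _ hx]
    have h1 : (x : ℝ) * x.den = x.num := by
      have := Rat.mul_den_eq_num x
      exact_mod_cast congrArg (fun z : ℚ => (z : ℝ)) this
    push_cast
    linear_combination ((∏ y ∈ s.erase x, (y.den : ℝ))) * h1

/-- the main inequality -/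
theorem main (f f' : ℚ × ℚ × ℚ) (hf : Independent f f') (η : ℝ) (hη : 0 < η) :
    ∃ C : ℝ, 0 ≤ C ∧ ∀ (ξ : ℝ) (b b' L L' : ℕ), 2 ≤ b → 2 ≤ b' →
      min (L * Real.log b) (L' * Real.log b') ≤
        (2 + η) * (complexity b (form ξ f) L * Real.log b +
          complexity b' (form ξ f') L' * Real.log b') + C * (Real.log b + Real.log b') := by
  obtain ⟨α, β, γ⟩ := f
  obtain ⟨α', β', γ'⟩ := f'
  obtain ⟨M, hM, hs⟩ := common_den {α, β, γ, α', β', γ'}
  obtain ⟨A, hA⟩ := hs α (by simp)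
  obtain ⟨B, hB⟩ := hs β (by simp)
  obtain ⟨G, hG⟩ := hs γ (by simp)
  obtain ⟨A', hA'⟩ := hs α' (by simp)
  obtain ⟨B', hB'⟩ := hs β' (by simp)
  obtain ⟨G', hG'⟩ := hs γ' (by simp)
  unfold Independent at hf
  simp only at hf
  have hMR : (1 : ℝ) ≤ M := by exact_mod_cast hM
  have hΔ : A' * B - A * B' ≠ 0 := by
    intro h
    apply hf
    have h1 : (A' : ℝ) * B - A * B' = 0 := by exact_mod_cast h
    rw [← hA, ← hB, ← hA', ← hB'] at h1
    have h2 : (M : ℝ) ^ 2 * ((α' : ℝ) * β - α * β') = 0 := by linear_combination h1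
    rcases mul_eq_zero.1 h2 with h3 | h3
    · have : (0 : ℝ) < (M : ℝ) ^ 2 := by positivity
      linarith
    · have h4 : (α : ℝ) * β' = α' * β := by linarith
      exact_mod_cast h4
  obtain ⟨C, hC0, hC⟩ := Pool.Agent.R354.LC.main A B G A' B' G' M hM hΔ η hη
  refine ⟨C, hC0, ?_⟩
  intro ξ b b' L L' hb hb'
  obtain ⟨c, hc⟩ := recurrence b (form ξ (α, β, γ)) L
  obtain ⟨c', hc'⟩ := recurrence b' (form ξ (α', β', γ')) L'
  refine hC ξ (form ξ (α, β, γ)) (form ξ (α', β', γ')) ?_ ?_ b b' L L' _ _ c c' hb hb' ?_ ?_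
  · simp only [form]
    rw [← hA, ← hB, ← hG]; ring
  · simp only [form]
    rw [← hA', ← hB', ← hG']; ring
  · intro i hi
    have h := hc (i + 1) (by omega) (by omega)
    have e1 : ∀ j, i + 1 + j = i + j + 1 := fun j => by ring
    simp only [e1] at h
    exact h
  · intro i hi
    have h := hc' (i + 1) (by omega) (by omega)
    have e1 : ∀ j, i + 1 + j = i + j + 1 := fun j => by ring
    simp only [e1] at h
    exact h

theorem log_ge (b : ℕ) (hb : 2 ≤ b) : 0.69 ≤ Real.log b := by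
  have hbR : (2 : ℝ) ≤ b := by exact_mod_cast hb
  have h1 := Real.log_two_gt_d9
  have h2 := Real.log_le_log (by norm_num : (0 : ℝ) < 2) hbR
  linarith

/-- two forms are not both bad at the same scale -/
theorem bad_pair (f f' : ℚ × ℚ × ℚ) (hf : Independent f f') (ε : ℝ) (hε : 0 < ε) :
    ∃ C : ℝ, 0 ≤ C ∧ ∀ (ξ X C' : ℝ), 0 ≤ X → C ≤ C' → Bad C' ε X (form ξ f) →
      Bad C' ε X (form ξ f') → False := by
  obtain ⟨C, hC0, hC⟩ := main f f' hf (4 * ε) (by linarith)
  refine ⟨C, hC0, ?_⟩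
  rintro ξ X C' hX0 hCC ⟨b, L, hb, hX, h1⟩ ⟨b', L', hb', hX', h2⟩
  have h3 := hC ξ b b' L L' hb hb'
  have hl := log_ge b hb
  have hl' := log_ge b' hb'
  have h4 : X ≤ min (L * Real.log b) (L' * Real.log b') := le_min hX hX'
  have hN : 0 ≤ (complexity b (form ξ f) L : ℝ) * Real.log b := by positivity
  have hN' : 0 ≤ (complexity b' (form ξ f') L' : ℝ) * Real.log b' := by positivity
  generalize (complexity b (form ξ f) L : ℝ) * Real.log b = u at *
  generalize (complexity b' (form ξ f') L' : ℝ) * Real.log b' = u' at *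
  have hC'0 : 0 ≤ C' := hC0.trans hCC
  have h5 : C * (Real.log b + Real.log b') ≤ C' * (Real.log b + Real.log b') :=
    mul_le_mul_of_nonneg_right hCC (by linarith)
  have h6 : 0 ≤ C' * (Real.log b + Real.log b') := by positivity
  have h7 : u + u' < (1 / 2 - 2 * ε) * X - C' * (Real.log b + Real.log b') := by linarith
  rcases hX0.eq_or_lt with hX00 | hX0'
  · rw [← hX00] at h7
    linarith
  have h8 : (2 + 4 * ε) * (u + u') ≤
      (2 + 4 * ε) * ((1 / 2 - 2 * ε) * X - C' * (Real.log b + Real.log b')) :=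
    mul_le_mul_of_nonneg_left h7.le (by linarith)
  have h9 : X ≤ (2 + 4 * ε) * ((1 / 2 - 2 * ε) * X - C' * (Real.log b + Real.log b')) +
      C' * (Real.log b + Real.log b') := by linarith
  have h10 : (2 + 4 * ε) * ((1 / 2 - 2 * ε) * X - C' * (Real.log b + Real.log b')) +
      C' * (Real.log b + Real.log b') =
      X - 2 * ε * X - 8 * ε ^ 2 * X - (1 + 4 * ε) * (C' * (Real.log b + Real.log b')) := by ring
  rw [h10] at h9
  have h15 : 0 ≤ (1 + 4 * ε) * (C' * (Real.log b + Real.log b')) := by positivity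
  have h16 : 0 < 2 * ε * X := by positivity
  have h17 : 0 ≤ 8 * ε ^ 2 * X := by positivity
  linarith

/-- (1) Let `y = α ξ + β e + γ`, `y' = α' ξ + β' e + γ'` be two forms with rational coefficients and
`α β' ≠ α' β`, and let `η > 0`. There is `C` such that for all real `ξ`, all bases `b`, `b'` and all
lengths `L`, `L'`, `min (L log b, L' log b')` is at most
`(2 + η) (N_b(y; L) log b + N_b'(y'; L') log b') + C (log b + log b')`.
(2) `N_b(π + e; L) + N_b(π - e; L) ≥ (1 / 2 - ε) L - C(ε)` for all bases `b` and all `L`.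
(3) For every finite set `F` of pairwise independent forms and every `ε > 0` there is `C` such that
for all real `ξ` and every scale `X ≥ 0` all but at most one of the forms in `F` are not bad, that is
they satisfy `N_b(y; L) log b ≥ (1 / 4 - ε) X - C log b` for all `b` and `L` with `L log b ≥ X`. -/
theorem result :
    (∀ f f' : ℚ × ℚ × ℚ, Independent f f' → ∀ η : ℝ, 0 < η → ∃ C : ℝ,
      ∀ (ξ : ℝ) (b b' L L' : ℕ), 2 ≤ b → 2 ≤ b' →
        min (L * Real.log b) (L' * Real.log b') ≤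
          (2 + η) * (complexity b (form ξ f) L * Real.log b +
            complexity b' (form ξ f') L' * Real.log b') + C * (Real.log b + Real.log b')) ∧
    (∀ ε : ℝ, 0 < ε → ∃ C : ℝ, ∀ b L : ℕ, 2 ≤ b →
      (1 / 2 - ε) * L - C ≤ (complexity b (Real.pi + Real.exp 1) L : ℝ) +
        complexity b (Real.pi - Real.exp 1) L) ∧
    (∀ F : Finset (ℚ × ℚ × ℚ), (F : Set (ℚ × ℚ × ℚ)).Pairwise Independent → ∀ ε : ℝ, 0 < ε →
      ∃ C : ℝ, ∀ ξ X : ℝ, 0 ≤ X → ∀ f ∈ F, ∀ g ∈ F,
        Bad C ε X (form ξ f) → Bad C ε X (form ξ g) → f = g) := by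
  classical
  refine ⟨?_, ?_, ?_⟩
  · intro f f' hf η hη
    obtain ⟨C, -, hC⟩ := main f f' hf η hη
    exact ⟨C, hC⟩
  · intro ε hε
    obtain ⟨C, hC0, hC⟩ := main (1, 1, 0) (1, -1, 0) (by
      unfold Independent
      norm_num) (4 * ε) (by linarith)
    refine ⟨C, fun b L hb => ?_⟩
    have h := hC Real.pi b b L L hb hb
    have e1 : form Real.pi (1, 1, 0) = Real.pi + Real.exp 1 := by
      simp [form]
    have e2 : form Real.pi (1, -1, 0) = Real.pi - Real.exp 1 := by
      simp [form]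
      ring
    rw [e1, e2, min_self] at h
    have hl := log_ge b hb
    have h1 : (L : ℝ) ≤ (2 + 4 * ε) * (complexity b (Real.pi + Real.exp 1) L +
        complexity b (Real.pi - Real.exp 1) L) + 2 * C := by
      have h2 : (L : ℝ) * Real.log b ≤ ((2 + 4 * ε) * (complexity b (Real.pi + Real.exp 1) L +
        complexity b (Real.pi - Real.exp 1) L) + 2 * C) * Real.log b := by
        refine h.trans (le_of_eq ?_)
        ring
      exact le_of_mul_le_mul_right h2 (by linarith)
    have hN : 0 ≤ (complexity b (Real.pi + Real.exp 1) L : ℝ) +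
        complexity b (Real.pi - Real.exp 1) L := by positivity
    generalize (complexity b (Real.pi + Real.exp 1) L : ℝ) +
        complexity b (Real.pi - Real.exp 1) L = u at *
    have hL : (0 : ℝ) ≤ L := Nat.cast_nonneg L
    by_contra hc
    push Not at hc
    have h3 : (2 + 4 * ε) * u ≤ (2 + 4 * ε) * ((1 / 2 - ε) * L - C) :=
      mul_le_mul_of_nonneg_left hc.le (by linarith)
    have h4 : (2 + 4 * ε) * ((1 / 2 - ε) * L - C) = L - 4 * ε ^ 2 * L - 2 * C - 4 * ε * C := by
      ring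
    rw [h4] at h3
    have h5 : 0 ≤ 4 * ε ^ 2 * L := by positivity
    have h6 : 0 ≤ 4 * ε * C := by positivity
    have h7 : (2 + 4 * ε) * u < (2 + 4 * ε) * ((1 / 2 - ε) * L - C) :=
      mul_lt_mul_of_pos_left hc (by linarith)
    rw [h4] at h7
    linarith
  · intro F hF ε hε
    have hex : ∀ p : (ℚ × ℚ × ℚ) × (ℚ × ℚ × ℚ), ∃ C : ℝ, 0 ≤ C ∧ (Independent p.1 p.2 →
        ∀ (ξ X C' : ℝ), 0 ≤ X → C ≤ C' → Bad C' ε X (form ξ p.1) →
          Bad C' ε X (form ξ p.2) → False) := by
      intro p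
      by_cases hp : Independent p.1 p.2
      · obtain ⟨C, hC0, hC⟩ := bad_pair p.1 p.2 hp ε hε
        exact ⟨C, hC0, fun _ => hC⟩
      · exact ⟨0, le_rfl, fun h => absurd h hp⟩
    choose C hC0 hC using hex
    refine ⟨∑ p ∈ F ×ˢ F, C p, ?_⟩
    intro ξ X hX f hf g hg hbf hbg
    by_contra hfg
    exact hC (f, g) (hF (by exact_mod_cast hf) (by exact_mod_cast hg) hfg) ξ X _ hX
      (Finset.single_le_sum (f := C) (fun p _ => hC0 p) (Finset.mk_mem_product hf hg)) hbf hbg

end Pool.Agent.Results.MP_363d4d_nt.RecurrencesInTwoBases
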